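import Pool.Agent.Helper70.BN.St2

/-!
# Project BN: module BHEC (the Hecke algebra acts on the left invariant functions)
-/

set_option autoImplicit false

namespace Pool.Agent.Helper15.BN

open Pool.Agent.Helper70.BN Pool.Agent.Helper75.MX Pool.Agent.Helper70.ML

theorem alt_prod {l : ℕ} (q : Fin l → ℕ) (i j : Fin l) : ∀ m : ℕ, (Odd m → q i = q j) →
    ((alt i j m).map q).prod = ((alt j i m).map q).prod
  | 0, _ => by simp [alt]
  | 1, h => by
    have h1 := h (by decide)
    simp [alt, h1]
  | m + 2, h => by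
    have ih := alt_prod q i j m (fun ho => h (by
      obtain ⟨k, hk⟩ := ho
      exact ⟨k + 1, by omega⟩))
    simp only [alt, List.map_cons, List.prod_cons]
    rw [ih]
    ring

/-- the operator `f ↦ c • avg B (L g f)` on the invariant functions -/
noncomputable def TT (hA : StBAVG) {G : Type} [Group G] [Finite G] (B : Subgroup G) (c : ℝ) (g : G) :
    Module.End ℝ (VB B) where
  toFun f := ⟨c • avg B (L g (f : G → ℝ)), (VB B).smul_mem c ((hA G B).1 (L g (f : G → ℝ)))⟩
  map_add' f h := by
    apply Subtype.ext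
    change c • avg B (L g ((f : G → ℝ) + (h : G → ℝ))) = c • avg B (L g (f : G → ℝ)) + c • avg B (L g (h : G → ℝ))
    rw [L_add, (hA G B).2.2.1, smul_add]
  map_smul' r f := by
    apply Subtype.ext
    change c • avg B (L g (r • (f : G → ℝ))) = r • (c • avg B (L g (f : G → ℝ)))
    rw [L_smul, (hA G B).2.2.2.1, smul_comm]

theorem TT_apply (hA : StBAVG) {G : Type} [Group G] [Finite G] (B : Subgroup G) (c : ℝ) (g : G) (f : VB B) :
    ((TT hA B c g f : VB B) : G → ℝ) = c • avg B (L g (f : G → ℝ)) := rfl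

theorem word_apply (hA : StBAVG) {G : Type} [Group G] [Finite G] (B : Subgroup G) {l : ℕ} (n : Fin l → G)
    (q : Fin l → ℕ) (f : VB B) (u : List (Fin l)) :
    (((u.map fun i => TT hA B (q i : ℝ) (n i)).prod f : VB B) : G → ℝ) =
      (((u.map q).prod : ℕ) : ℝ) • tt B (u.map n) (f : G → ℝ) := by
  induction u with
  | nil => simp [tt]
  | cons i u ih =>
    rw [List.map_cons, List.prod_cons, Module.End.mul_apply, TT_apply, ih, L_smul, (hA G B).2.2.2.1, smul_smul]
    simp only [List.map_cons, List.prod_cons, Nat.cast_mul]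
    rfl

theorem hBHEC (hBAVG : StBAVG) (hBQUAD : StBQUAD) (hBBRD : StBBRD) : StBHEC := by
  intro G _ _ B l n q m h1 h2 h3 h4 h5
  refine ⟨fun i => TT hBAVG B (q i : ℝ) (n i), fun i f => TT_apply hBAVG B (q i : ℝ) (n i) f, ?_, ?_⟩
  · intro i
    apply LinearMap.ext
    intro f
    apply Subtype.ext
    have hq := hBQUAD G B (n i) (q i) (h1 i) (h2 i) (by have := (h3 i).1; omega) (h3 i).2 (f : G → ℝ) f.2
    rw [Module.End.mul_apply, TT_apply, TT_apply, hq]
    simp only [LinearMap.add_apply, Module.End.mul_apply, Module.algebraMap_end_apply, Submodule.coe_add,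
      Submodule.coe_smul, TT_apply]
  · intro i j hij
    apply LinearMap.ext
    intro f
    apply Subtype.ext
    obtain ⟨w, hw1, hw2⟩ := h4 i j hij
    rw [word_apply, word_apply, alt_prod q i j (m i j) (h5 i j hij), hBBRD G B _ w hw1 (f : G → ℝ) f.2,
      hBBRD G B _ w hw2 (f : G → ℝ) f.2]

end Pool.Agent.Helper15.BN
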